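import Mathlib

namespace Pool.Agent.Lib.Ram

/-- Instructions of a deterministic random-access machine with registers `r[0], r[1], …` and memory
cells `m[0], m[1], …`, all holding natural numbers.  Program lines are numbered from `0`. -/
inductive Instr where
  /-- `r[d] := c` -/
  | const (d c : ℕ)
  /-- `r[d] := r[a] + r[b]` -/
  | add (d a b : ℕ)
  /-- `r[d] := max (r[a] - r[b]) 0` -/
  | sub (d a b : ℕ)
  /-- `r[d] := r[a] * r[b]` -/
  | mul (d a b : ℕ)
  /-- `r[d] := floor (r[a] / r[b])` (and `0` if `r[b] = 0`) -/
  | div (d a b : ℕ)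
  /-- `r[d] := m[r[a]]` -/
  | load (d a : ℕ)
  /-- `m[r[a]] := r[b]` -/
  | store (a b : ℕ)
  /-- if `r[a] = 0` then go to line `l`, else to the next line -/
  | jz (a l : ℕ)
  /-- go to line `l` -/
  | jmp (l : ℕ)

/-- A configuration: the program counter, the contents of the registers and of the memory. -/
structure Config where
  pc : ℕ
  reg : ℕ → ℕ
  mem : ℕ → ℕ

/-- One step of the program `P` (a configuration whose program counter is outside `P` is halted). -/
def step (P : List Instr) (s : Config) : Config :=
  match P[s.pc]? with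
  | none => s
  | some (.const d c) => ⟨s.pc + 1, Function.update s.reg d c, s.mem⟩
  | some (.add d a b) => ⟨s.pc + 1, Function.update s.reg d (s.reg a + s.reg b), s.mem⟩
  | some (.sub d a b) => ⟨s.pc + 1, Function.update s.reg d (s.reg a - s.reg b), s.mem⟩
  | some (.mul d a b) => ⟨s.pc + 1, Function.update s.reg d (s.reg a * s.reg b), s.mem⟩
  | some (.div d a b) => ⟨s.pc + 1, Function.update s.reg d (s.reg a / s.reg b), s.mem⟩
  | some (.load d a) => ⟨s.pc + 1, Function.update s.reg d (s.mem (s.reg a)), s.mem⟩
  | some (.store a b) => ⟨s.pc + 1, s.reg, Function.update s.mem (s.reg a) (s.reg b)⟩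
  | some (.jz a l) => ⟨if s.reg a = 0 then l else s.pc + 1, s.reg, s.mem⟩
  | some (.jmp l) => ⟨l, s.reg, s.mem⟩

/-- The initial configuration on the input `x`: register `0` holds the length of `x`, memory cell
`i` holds the `i`-th entry of `x`, every other register and memory cell holds `0`. -/
def initial (x : List ℕ) : Config :=
  ⟨0, fun i => if i = 0 then x.length else 0, fun i => x.getD i 0⟩

/-- Started in `s`, the program `P` halts after at most `T` steps, in the configuration `s'`, and
throughout this computation no register and no memory cell holds a number greater than `W`. -/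
def HaltsWithin (P : List Instr) (s : Config) (T W : ℕ) (s' : Config) : Prop :=
  ∃ t ≤ T, (step P)^[t] s = s' ∧ P.length ≤ s'.pc ∧
    ∀ k ≤ t, ∀ i, ((step P)^[k] s).reg i ≤ W ∧ ((step P)^[k] s).mem i ≤ W

end Pool.Agent.Lib.Ram
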