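import Pool.Agent.Lib.Ram.Defs

namespace Pool.Agent.Lib.Ram

inductive Expr where
  | lit (c : ℕ)
  | var (r : ℕ)
  | add (a b : Expr)
  | sub (a b : Expr)
  | mul (a b : Expr)
  | div (a b : Expr)
  | load (a : Expr)

structure St where
  reg : ℕ → ℕ
  mem : ℕ → ℕ

def St.set (σ : St) (d v : ℕ) : St := ⟨Function.update σ.reg d v, σ.mem⟩
def St.put (σ : St) (a v : ℕ) : St := ⟨σ.reg, Function.update σ.mem a v⟩

def Bdd (W : ℕ) (σ : St) : Prop := (∀ r, σ.reg r ≤ W) ∧ ∀ a, σ.mem a ≤ W

def Expr.eval (σ : St) : Expr → ℕ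
  | .lit c => c
  | .var r => σ.reg r
  | .add a b => a.eval σ + b.eval σ
  | .sub a b => a.eval σ - b.eval σ
  | .mul a b => a.eval σ * b.eval σ
  | .div a b => a.eval σ / b.eval σ
  | .load a => σ.mem (a.eval σ)

def Expr.ok (W : ℕ) (σ : St) : Expr → Prop
  | .lit c => c ≤ W
  | .var _ => True
  | .add a b => a.ok W σ ∧ b.ok W σ ∧ a.eval σ + b.eval σ ≤ W
  | .sub a b => a.ok W σ ∧ b.ok W σ
  | .mul a b => a.ok W σ ∧ b.ok W σ ∧ a.eval σ * b.eval σ ≤ W
  | .div a b => a.ok W σ ∧ b.ok W σ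
  | .load a => a.ok W σ

def Expr.size : Expr → ℕ
  | .lit _ => 1
  | .var _ => 2
  | .add a b => a.size + b.size + 1
  | .sub a b => a.size + b.size + 1
  | .mul a b => a.size + b.size + 1
  | .div a b => a.size + b.size + 1
  | .load a => a.size + 1

def Expr.vars (K : ℕ) : Expr → Prop
  | .lit _ => True
  | .var r => r < K
  | .add a b => a.vars K ∧ b.vars K
  | .sub a b => a.vars K ∧ b.vars K
  | .mul a b => a.vars K ∧ b.vars K
  | .div a b => a.vars K ∧ b.vars K
  | .load a => a.vars K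

theorem Expr.eval_le {W : ℕ} {σ : St} (hσ : Bdd W σ) : ∀ (e : Expr), e.ok W σ → e.eval σ ≤ W
  | .lit _, h => h
  | .var r, _ => hσ.1 r
  | .add _ _, h => h.2.2
  | .sub a _, h => (Nat.sub_le _ _).trans (a.eval_le hσ h.1)
  | .mul _ _, h => h.2.2
  | .div a _, h => (Nat.div_le_self _ _).trans (a.eval_le hσ h.1)
  | .load _, _ => hσ.2 _

inductive Cmd where
  | skip
  | assign (d : ℕ) (e : Expr)
  | store (a v : Expr)
  | seq (p q : Cmd)
  | ite (e : Expr) (p q : Cmd)
  | loop (e : Expr) (p : Cmd)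

def Cmd.vars (K : ℕ) : Cmd → Prop
  | .skip => True
  | .assign d e => d < K ∧ e.vars K
  | .store a v => a.vars K ∧ v.vars K
  | .seq p q => p.vars K ∧ q.vars K
  | .ite e p q => e.vars K ∧ p.vars K ∧ q.vars K
  | .loop e p => e.vars K ∧ p.vars K

inductive Exec (W : ℕ) : Cmd → St → ℕ → St → Prop
  | skip (σ : St) : Exec W .skip σ 0 σ
  | assign (σ : St) (d : ℕ) (e : Expr) (h : e.ok W σ) :
      Exec W (.assign d e) σ (e.size + 2) (σ.set d (e.eval σ))
  | store (σ : St) (a v : Expr) (ha : a.ok W σ) (hv : v.ok W σ) :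
      Exec W (.store a v) σ (a.size + v.size + 1) (σ.put (a.eval σ) (v.eval σ))
  | seq {p q : Cmd} {σ σ₁ σ₂ : St} {t₁ t₂ : ℕ} (h₁ : Exec W p σ t₁ σ₁) (h₂ : Exec W q σ₁ t₂ σ₂) :
      Exec W (.seq p q) σ (t₁ + t₂) σ₂
  | iteT {e : Expr} {p q : Cmd} {σ σ' : St} {t : ℕ} (h : e.ok W σ) (he : e.eval σ ≠ 0)
      (h₁ : Exec W p σ t σ') : Exec W (.ite e p q) σ (e.size + 1 + t + 1) σ'
  | iteF {e : Expr} {p q : Cmd} {σ σ' : St} {t : ℕ} (h : e.ok W σ) (he : e.eval σ = 0)
      (h₁ : Exec W q σ t σ') : Exec W (.ite e p q) σ (e.size + 1 + t) σ'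
  | loopF {e : Expr} {p : Cmd} {σ : St} (h : e.ok W σ) (he : e.eval σ = 0) :
      Exec W (.loop e p) σ (e.size + 1) σ
  | loopT {e : Expr} {p : Cmd} {σ σ₁ σ₂ : St} {t₁ t₂ : ℕ} (h : e.ok W σ) (he : e.eval σ ≠ 0)
      (h₁ : Exec W p σ t₁ σ₁) (h₂ : Exec W (.loop e p) σ₁ t₂ σ₂) :
      Exec W (.loop e p) σ (e.size + 1 + t₁ + 1 + t₂) σ₂

theorem Bdd.set {W : ℕ} {σ : St} (h : Bdd W σ) {d v : ℕ} (hv : v ≤ W) : Bdd W (σ.set d v) := by
  refine ⟨fun r => ?_, h.2⟩
  simp only [St.set, Function.update_apply]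
  split_ifs
  · exact hv
  · exact h.1 r

theorem Bdd.put {W : ℕ} {σ : St} (h : Bdd W σ) {d v : ℕ} (hv : v ≤ W) : Bdd W (σ.put d v) := by
  refine ⟨h.1, fun r => ?_⟩
  simp only [St.put, Function.update_apply]
  split_ifs
  · exact hv
  · exact h.2 r

theorem Exec.bdd {W : ℕ} {c : Cmd} {σ σ' : St} {t : ℕ} (h : Exec W c σ t σ') :
    Bdd W σ → Bdd W σ' := by
  induction h with
  | skip σ => exact id
  | assign σ d e h => exact fun hb => hb.set (e.eval_le hb h)
  | store σ a v ha hv => exact fun hb => hb.put (v.eval_le hb hv)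
  | seq _ _ ih₁ ih₂ => exact fun hb => ih₂ (ih₁ hb)
  | iteT _ _ _ ih => exact ih
  | iteF _ _ _ ih => exact ih
  | loopF => exact id
  | loopT _ _ _ _ ih₁ ih₂ => exact fun hb => ih₂ (ih₁ hb)

/-! ### Compilation -/

def compE (k : ℕ) : Expr → List Instr
  | .lit c => [.const k c]
  | .var r => [.const k 0, .add k r k]
  | .add a b => compE k a ++ compE (k + 1) b ++ [.add k k (k + 1)]
  | .sub a b => compE k a ++ compE (k + 1) b ++ [.sub k k (k + 1)]
  | .mul a b => compE k a ++ compE (k + 1) b ++ [.mul k k (k + 1)]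
  | .div a b => compE k a ++ compE (k + 1) b ++ [.div k k (k + 1)]
  | .load a => compE k a ++ [.load k k]

theorem compE_length (k : ℕ) (e : Expr) : (compE k e).length = e.size := by
  induction e generalizing k with
  | lit c => rfl
  | var r => rfl
  | add a b iha ihb => simp [compE, Expr.size, iha, ihb]; omega
  | sub a b iha ihb => simp [compE, Expr.size, iha, ihb]; omega
  | mul a b iha ihb => simp [compE, Expr.size, iha, ihb]; omega
  | div a b iha ihb => simp [compE, Expr.size, iha, ihb]; omega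
  | load a iha => simp [compE, Expr.size, iha]

def compC (K off : ℕ) : Cmd → List Instr
  | .skip => []
  | .assign d e => compE K e ++ [.const (K + 1) 0, .add d K (K + 1)]
  | .store a v => compE K a ++ compE (K + 1) v ++ [.store K (K + 1)]
  | .seq p q => compC K off p ++ compC K (off + (compC K off p).length) q
  | .ite e p q =>
      let P := compC K (off + e.size + 1) p
      let Q := compC K (off + e.size + 1 + P.length + 1) q
      compE K e ++ [.jz K (off + e.size + 1 + P.length + 1)] ++ P ++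
        [.jmp (off + e.size + 1 + P.length + 1 + Q.length)] ++ Q
  | .loop e p =>
      let P := compC K (off + e.size + 1) p
      compE K e ++ [.jz K (off + e.size + 1 + P.length + 1)] ++ P ++ [.jmp off]

/-- `s'` is reached from `s` in exactly `t` steps, all values staying at most `W`. -/
def Reach (P : List Instr) (W : ℕ) (s : Config) (t : ℕ) (s' : Config) : Prop :=
  (step P)^[t] s = s' ∧ ∀ k ≤ t, ∀ i, ((step P)^[k] s).reg i ≤ W ∧ ((step P)^[k] s).mem i ≤ W

theorem Reach.refl {P : List Instr} {W : ℕ} {s : Config} (h : ∀ i, s.reg i ≤ W ∧ s.mem i ≤ W) :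
    Reach P W s 0 s := by
  refine ⟨rfl, fun k hk i => ?_⟩
  obtain rfl : k = 0 := by omega
  exact h i

theorem Reach.trans {P : List Instr} {W : ℕ} {s s₁ s₂ : Config} {t₁ t₂ : ℕ}
    (h₁ : Reach P W s t₁ s₁) (h₂ : Reach P W s₁ t₂ s₂) : Reach P W s (t₁ + t₂) s₂ := by
  obtain ⟨e₁, b₁⟩ := h₁
  obtain ⟨e₂, b₂⟩ := h₂
  refine ⟨?_, fun k hk i => ?_⟩
  · rw [Nat.add_comm, Function.iterate_add_apply, e₁, e₂]
  · by_cases h : k ≤ t₁
    · exact b₁ k h i
    · obtain ⟨j, rfl⟩ := Nat.exists_eq_add_of_le (Nat.le_of_lt (not_le.mp h))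
      rw [Nat.add_comm, Function.iterate_add_apply, e₁]
      exact b₂ j (by omega) i

theorem Reach.one {P : List Instr} {W : ℕ} {s s' : Config} (h : ∀ i, s.reg i ≤ W ∧ s.mem i ≤ W)
    (h' : ∀ i, s'.reg i ≤ W ∧ s'.mem i ≤ W) (hs : step P s = s') : Reach P W s 1 s' := by
  refine ⟨hs, fun k hk i => ?_⟩
  rcases Nat.le_one_iff_eq_zero_or_eq_one.mp hk with rfl | rfl
  · exact h i
  · simp only [Function.iterate_one, hs]; exact h' i

theorem Reach.bdd {P : List Instr} {W : ℕ} {s s' : Config} {t : ℕ} (h : Reach P W s t s') :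
    ∀ i, s'.reg i ≤ W ∧ s'.mem i ≤ W := by
  obtain ⟨rfl, b⟩ := h
  exact b t le_rfl

/-- The code `C` occurs in `P` at position `off`. -/
def At (P : List Instr) (off : ℕ) (C : List Instr) : Prop :=
  ∃ pre post, P = pre ++ C ++ post ∧ pre.length = off

theorem At.append {P : List Instr} {off : ℕ} {C D : List Instr} (h : At P off (C ++ D)) :
    At P off C ∧ At P (off + C.length) D := by
  obtain ⟨pre, post, rfl, rfl⟩ := h
  refine ⟨⟨pre, D ++ post, by simp, rfl⟩, ⟨pre ++ C, post, by simp, by simp⟩⟩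

theorem At.get {P : List Instr} {off : ℕ} {i : Instr} {D : List Instr} (h : At P off (i :: D)) :
    P[off]? = some i := by
  obtain ⟨pre, post, rfl, rfl⟩ := h
  simp

theorem At.tail {P : List Instr} {off : ℕ} {i : Instr} {D : List Instr} (h : At P off (i :: D)) :
    At P (off + 1) D := by
  obtain ⟨pre, post, rfl, rfl⟩ := h
  exact ⟨pre ++ [i], post, by simp, by simp⟩

/-- agreement of a flat configuration with a state on the registers below `K` and the memory -/
def Agree (K : ℕ) (s : Config) (σ : St) : Prop := (∀ r < K, s.reg r = σ.reg r) ∧ s.mem = σ.mem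

def CB (W : ℕ) (s : Config) : Prop := ∀ i, s.reg i ≤ W ∧ s.mem i ≤ W

theorem CB.upd {W : ℕ} {s : Config} (h : CB W s) {p d v : ℕ} (hv : v ≤ W) :
    CB W ⟨p, Function.update s.reg d v, s.mem⟩ := by
  intro i
  refine ⟨?_, (h i).2⟩
  simp only [Function.update_apply]
  split_ifs
  · exact hv
  · exact (h i).1

/-- code for an expression: result in register `k`, registers below `k` unchanged -/
theorem compE_correct {P : List Instr} {W K : ℕ} (e : Expr) :
    ∀ (k off : ℕ) (s : Config) (σ : St), K ≤ k → e.vars K → Agree K s σ → CB W s →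
      e.ok W σ → s.pc = off → At P off (compE k e) →
      ∃ s', Reach P W s e.size s' ∧ s'.pc = off + e.size ∧ s'.mem = s.mem ∧
        (∀ r < k, s'.reg r = s.reg r) ∧ s'.reg k = e.eval σ := by
  have bin : ∀ (a b : Expr) (f : ℕ → ℕ → ℕ) (mk : ℕ → ℕ → ℕ → Instr) (k off : ℕ) (s : Config)
      (σ : St)
      (_hmk : ∀ (s : Config), P[s.pc]? = some (mk k k (k + 1)) →
        step P s = ⟨s.pc + 1, Function.update s.reg k (f (s.reg k) (s.reg (k + 1))), s.mem⟩)
      (_iha : ∀ (k off : ℕ) (s : Config) (σ : St), K ≤ k → a.vars K → Agree K s σ → CB W s →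
        a.ok W σ → s.pc = off → At P off (compE k a) →
        ∃ s', Reach P W s a.size s' ∧ s'.pc = off + a.size ∧ s'.mem = s.mem ∧
          (∀ r < k, s'.reg r = s.reg r) ∧ s'.reg k = a.eval σ)
      (_ihb : ∀ (k off : ℕ) (s : Config) (σ : St), K ≤ k → b.vars K → Agree K s σ → CB W s →
        b.ok W σ → s.pc = off → At P off (compE k b) →
        ∃ s', Reach P W s b.size s' ∧ s'.pc = off + b.size ∧ s'.mem = s.mem ∧
          (∀ r < k, s'.reg r = s.reg r) ∧ s'.reg k = b.eval σ),
      K ≤ k → a.vars K → b.vars K → Agree K s σ → CB W s → a.ok W σ → b.ok W σ →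
      (a.eval σ ≤ W → f (a.eval σ) (b.eval σ) ≤ W) → s.pc = off →
      At P off (compE k a ++ compE (k + 1) b ++ [mk k k (k + 1)]) →
      ∃ s', Reach P W s (a.size + b.size + 1) s' ∧ s'.pc = off + (a.size + b.size + 1) ∧
        s'.mem = s.mem ∧ (∀ r < k, s'.reg r = s.reg r) ∧ s'.reg k = f (a.eval σ) (b.eval σ) := by
    intro a b f mk k off s σ hmk iha ihb hk hva hvb hag hcb hoka hokb hle hpc hat
    obtain ⟨h12, h3⟩ := hat.append
    obtain ⟨h1, h2⟩ := h12.append
    rw [compE_length] at h2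
    rw [List.length_append, compE_length, compE_length] at h3
    obtain ⟨s₁, r₁, p₁, m₁, f₁, v₁⟩ := iha k off s σ hk hva hag hcb hoka hpc h1
    have hag₁ : Agree K s₁ σ := ⟨fun r hr => (f₁ r (by omega)).trans (hag.1 r hr), m₁.trans hag.2⟩
    obtain ⟨s₂, r₂, p₂, m₂, f₂, v₂⟩ :=
      ihb (k + 1) (off + a.size) s₁ σ (by omega) hvb hag₁ r₁.bdd hokb p₁ h2
    have hget := h3.get
    have hst := hmk s₂ (by rw [p₂, Nat.add_assoc]; exact hget)
    have hk2 : s₂.reg k = a.eval σ := (f₂ k (by omega)).trans v₁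
    have hle := hle (by rw [← v₁]; exact (r₁.bdd k).1)
    rw [hk2, v₂] at hst
    refine ⟨_, (r₁.trans r₂).trans (Reach.one r₂.bdd ?_ hst), ?_, ?_, ?_, ?_⟩
    · exact CB.upd (W := W) r₂.bdd hle
    · simp only [p₂]; omega
    · simp only [m₂, m₁]
    · intro r hr
      simp only [Function.update_apply, if_neg (show r ≠ k by omega)]
      rw [f₂ r (by omega), f₁ r hr]
    · simp
  induction e with
  | lit c =>
    intro k off s σ hk hv hag hcb hok hpc hat
    have hget := hat.get
    have hst : step P s = ⟨s.pc + 1, Function.update s.reg k c, s.mem⟩ := by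
      simp only [step, hpc, hget]
    refine ⟨_, Reach.one hcb (CB.upd hcb hok) hst, ?_, rfl, ?_, ?_⟩
    · simp [hpc, Expr.size]
    · intro r hr
      simp only [Function.update_apply, if_neg (show r ≠ k by omega)]
    · simp [Expr.eval]
  | var r =>
    intro k off s σ hk hv hag hcb hok hpc hat
    have hget := hat.get
    have hget2 := hat.tail.get
    have hst : step P s = ⟨off + 1, Function.update s.reg k 0, s.mem⟩ := by
      simp only [step, hpc, hget]
    have hcb1 : CB W ⟨off + 1, Function.update s.reg k 0, s.mem⟩ := CB.upd hcb (Nat.zero_le _)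
    have hrk : r ≠ k := by
      have : r < K := hv
      omega
    have hst2 : step P ⟨off + 1, Function.update s.reg k 0, s.mem⟩ =
        ⟨off + 1 + 1, Function.update (Function.update s.reg k 0) k (s.reg r), s.mem⟩ := by
      simp only [step, hget2]
      simp [hrk]
    refine ⟨_, (Reach.one hcb hcb1 hst).trans (Reach.one hcb1 ?_ hst2), ?_, rfl, ?_, ?_⟩
    · exact CB.upd hcb1 (hcb r).1
    · simp [Expr.size]
    · intro r' hr'
      simp only [Function.update_apply, if_neg (show r' ≠ k by omega)]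
    · simpa [Expr.eval] using hag.1 r hv
  | add a b iha ihb =>
    intro k off s σ hk hv hag hcb hok hpc hat
    exact bin a b (· + ·) .add k off s σ (fun s hs => by simp only [step, hs]) iha ihb hk hv.1 hv.2
      hag hcb hok.1 hok.2.1 (fun _ => hok.2.2) hpc hat
  | sub a b iha ihb =>
    intro k off s σ hk hv hag hcb hok hpc hat
    exact bin a b (· - ·) .sub k off s σ (fun s hs => by simp only [step, hs]) iha ihb hk hv.1 hv.2
      hag hcb hok.1 hok.2 (fun hle => (Nat.sub_le _ _).trans hle) hpc hat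
  | mul a b iha ihb =>
    intro k off s σ hk hv hag hcb hok hpc hat
    exact bin a b (· * ·) .mul k off s σ (fun s hs => by simp only [step, hs]) iha ihb hk hv.1 hv.2
      hag hcb hok.1 hok.2.1 (fun _ => hok.2.2) hpc hat
  | div a b iha ihb =>
    intro k off s σ hk hv hag hcb hok hpc hat
    exact bin a b (· / ·) .div k off s σ (fun s hs => by simp only [step, hs]) iha ihb hk hv.1 hv.2
      hag hcb hok.1 hok.2 (fun hle => (Nat.div_le_self _ _).trans hle) hpc hat
  | load a iha =>
    intro k off s σ hk hv hag hcb hok hpc hat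
    obtain ⟨h1, h2⟩ := hat.append
    rw [compE_length] at h2
    obtain ⟨s₁, r₁, p₁, m₁, f₁, v₁⟩ := iha k off s σ hk hv hag hcb hok hpc h1
    have hget := h2.get
    have hst : step P s₁ = ⟨s₁.pc + 1, Function.update s₁.reg k (s₁.mem (s₁.reg k)), s₁.mem⟩ := by
      simp only [step, p₁, hget]
    refine ⟨_, r₁.trans (Reach.one r₁.bdd ?_ hst), ?_, ?_, ?_, ?_⟩
    · exact CB.upd (W := W) r₁.bdd (r₁.bdd _).2
    · simp only [p₁, Expr.size]; omega
    · simp only [m₁]
    · intro r hr
      simp only [Function.update_apply, if_neg (show r ≠ k by omega)]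
      rw [f₁ r hr]
    · simp [Expr.eval, v₁, m₁, hag.2]

/-- Correctness of the compiler. -/
theorem compC_correct {P : List Instr} {W K : ℕ} {c : Cmd} {σ σ' : St} {t : ℕ}
    (h : Exec W c σ t σ') : ∀ (off : ℕ) (s : Config), c.vars K → Agree K s σ → CB W s →
      s.pc = off → At P off (compC K off c) →
      ∃ s', Reach P W s t s' ∧ s'.pc = off + (compC K off c).length ∧ Agree K s' σ' := by
  induction h with
  | skip σ =>
    intro off s hv hag hcb hpc hat
    exact ⟨s, Reach.refl hcb, by simp [hpc, compC], hag⟩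
  | assign σ d e hok =>
    intro off s hv hag hcb hpc hat
    obtain ⟨h1, h2⟩ := At.append hat
    rw [compE_length] at h2
    obtain ⟨s₁, r₁, p₁, m₁, f₁, v₁⟩ :=
      compE_correct e K off s σ le_rfl hv.2 hag hcb hok hpc h1
    have hget := h2.get
    have hget2 := h2.tail.get
    have hst : step P s₁ = ⟨off + e.size + 1, Function.update s₁.reg (K + 1) 0, s₁.mem⟩ := by
      simp only [step, p₁, hget]
    have hcb1 : CB W ⟨off + e.size + 1, Function.update s₁.reg (K + 1) 0, s₁.mem⟩ :=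
      CB.upd (W := W) r₁.bdd (Nat.zero_le _)
    have hst2 : step P ⟨off + e.size + 1, Function.update s₁.reg (K + 1) 0, s₁.mem⟩ =
        ⟨off + e.size + 1 + 1, Function.update (Function.update s₁.reg (K + 1) 0) d
          (s₁.reg K), s₁.mem⟩ := by
      simp only [step, hget2]
      simp
    have hd : d < K := hv.1
    refine ⟨_, r₁.trans ((Reach.one r₁.bdd hcb1 hst).trans (Reach.one hcb1 ?_ hst2)), ?_, ?_, ?_⟩
    · exact CB.upd hcb1 (r₁.bdd _).1
    · simp [compC, compE_length]; omega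
    · intro r hr
      simp only [Function.update_apply, St.set, v₁]
      split_ifs with h1 h2
      · rfl
      · omega
      · rw [f₁ r hr]; exact hag.1 r hr
    · simp only [St.set, m₁]; exact hag.2
  | store σ a v ha hv' =>
    intro off s hv hag hcb hpc hat
    obtain ⟨h12, h3⟩ := At.append hat
    obtain ⟨h1, h2⟩ := h12.append
    rw [compE_length] at h2
    rw [List.length_append, compE_length, compE_length] at h3
    obtain ⟨s₁, r₁, p₁, m₁, f₁, v₁⟩ :=
      compE_correct a K off s σ le_rfl hv.1 hag hcb ha hpc h1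
    have hag₁ : Agree K s₁ σ := ⟨fun r hr => (f₁ r (by omega)).trans (hag.1 r hr), m₁.trans hag.2⟩
    obtain ⟨s₂, r₂, p₂, m₂, f₂, v₂⟩ :=
      compE_correct v (K + 1) (off + a.size) s₁ σ (by omega) hv.2 hag₁ r₁.bdd hv' p₁ h2
    have hk2 : s₂.reg K = a.eval σ := (f₂ K (by omega)).trans v₁
    have hget := h3.get
    have hst : step P s₂ = ⟨off + (a.size + v.size) + 1, s₂.reg,
        Function.update s₂.mem (a.eval σ) (v.eval σ)⟩ := by
      rw [← Nat.add_assoc] at hget
      simp only [step, p₂, hget, hk2, v₂]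
      simp only [Nat.add_assoc]
    refine ⟨_, (r₁.trans r₂).trans (Reach.one r₂.bdd ?_ hst), ?_, ?_, ?_⟩
    · intro i
      refine ⟨(r₂.bdd i).1, ?_⟩
      simp only [Function.update_apply]
      split_ifs
      · rw [← v₂]; exact (r₂.bdd _).1
      · exact (r₂.bdd i).2
    · simp [compC, compE_length]; omega
    · intro r hr
      simp only [St.put]
      rw [f₂ r (by omega), f₁ r hr]; exact hag.1 r hr
    · simp only [St.put, m₂, m₁]; rw [hag.2]
  | seq h₁ h₂ ih₁ ih₂ =>
    intro off s hv hag hcb hpc hat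
    obtain ⟨h1, h2⟩ := At.append hat
    obtain ⟨s₁, r₁, p₁, g₁⟩ := ih₁ off s hv.1 hag hcb hpc h1
    obtain ⟨s₂, r₂, p₂, g₂⟩ := ih₂ _ s₁ hv.2 g₁ r₁.bdd p₁ h2
    refine ⟨s₂, r₁.trans r₂, ?_, g₂⟩
    rw [p₂]; simp [compC]; omega
  | @iteT e p q σ σ' t hok he h₁ ih =>
    intro off s hv hag hcb hpc hat
    obtain ⟨h1234, h5⟩ := At.append hat
    obtain ⟨h123, h4⟩ := h1234.append
    obtain ⟨h12, h3⟩ := h123.append
    obtain ⟨h1, h2⟩ := h12.append
    rw [compE_length] at h2
    rw [List.length_append, compE_length, List.length_singleton] at h3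
    rw [List.length_append, List.length_append, compE_length, List.length_singleton] at h4
    obtain ⟨s₁, r₁, p₁, m₁, f₁, v₁⟩ :=
      compE_correct e K off s σ le_rfl hv.1 hag hcb hok hpc h1
    have hget := h2.get
    have hst : step P s₁ = ⟨off + e.size + 1, s₁.reg, s₁.mem⟩ := by
      simp only [step, p₁, hget, v₁, if_neg he]
    have hag₁ : Agree K ⟨off + e.size + 1, s₁.reg, s₁.mem⟩ σ :=
      ⟨fun r hr => (f₁ r hr).trans (hag.1 r hr), m₁.trans hag.2⟩
    have h3' : At P (off + e.size + 1) (compC K (off + e.size + 1) p) := by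
      simpa [Nat.add_assoc] using h3
    obtain ⟨s₂, r₂, p₂, g₂⟩ := ih (off + e.size + 1) ⟨off + e.size + 1, s₁.reg, s₁.mem⟩ hv.2.1
      hag₁ r₁.bdd rfl h3'
    have hget4 := h4.get
    set LP := (compC K (off + e.size + 1) p).length with hLP
    set LQ := (compC K (off + e.size + 1 + LP + 1) q).length with hLQ
    have hst2 : step P s₂ = ⟨off + e.size + 1 + LP + 1 + LQ, s₂.reg, s₂.mem⟩ := by
      have : s₂.pc = off + (e.size + 1 + LP) := by rw [p₂]; omega
      simp only [step, this, hget4]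
    refine ⟨_, ((r₁.trans (Reach.one r₁.bdd ?_ hst)).trans r₂).trans
      (Reach.one r₂.bdd ?_ hst2), ?_, ?_⟩
    · exact r₁.bdd
    · exact r₂.bdd
    · simp only [compC, List.length_append, compE_length, List.length_singleton, ← hLP, ← hLQ]
      omega
    · exact ⟨g₂.1, g₂.2⟩
  | @iteF e p q σ σ' t hok he h₁ ih =>
    intro off s hv hag hcb hpc hat
    obtain ⟨h1234, h5⟩ := At.append hat
    obtain ⟨h123, h4⟩ := h1234.append
    obtain ⟨h12, h3⟩ := h123.append
    obtain ⟨h1, h2⟩ := h12.append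
    rw [compE_length] at h2
    obtain ⟨s₁, r₁, p₁, m₁, f₁, v₁⟩ :=
      compE_correct e K off s σ le_rfl hv.1 hag hcb hok hpc h1
    have hget := h2.get
    set LP := (compC K (off + e.size + 1) p).length with hLP
    have hst : step P s₁ = ⟨off + e.size + 1 + LP + 1, s₁.reg, s₁.mem⟩ := by
      simp only [step, p₁, hget, v₁, if_pos he]
    have hag₁ : Agree K ⟨off + e.size + 1 + LP + 1, s₁.reg, s₁.mem⟩ σ :=
      ⟨fun r hr => (f₁ r hr).trans (hag.1 r hr), m₁.trans hag.2⟩
    have h5' : At P (off + e.size + 1 + LP + 1) (compC K (off + e.size + 1 + LP + 1) q) := by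
      have e5 : off + (compE K e ++ [Instr.jz K (off + e.size + 1 + LP + 1)] ++
          compC K (off + e.size + 1) p ++
          [Instr.jmp (off + e.size + 1 + LP + 1 +
            (compC K (off + e.size + 1 + LP + 1) q).length)]).length
          = off + e.size + 1 + LP + 1 := by
        simp only [List.length_append, compE_length, List.length_singleton]
        omega
      rw [← e5]
      convert h5 using 1
      rw [e5]
    obtain ⟨s₂, r₂, p₂, g₂⟩ :=
      ih (off + e.size + 1 + LP + 1) ⟨off + e.size + 1 + LP + 1, s₁.reg, s₁.mem⟩ hv.2.2 hag₁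
        r₁.bdd rfl h5'
    refine ⟨_, (r₁.trans (Reach.one r₁.bdd ?_ hst)).trans r₂, ?_, ?_⟩
    · exact r₁.bdd
    · rw [p₂]
      simp only [compC, List.length_append, compE_length, List.length_singleton, ← hLP]
      omega
    · exact g₂
  | @loopF e p σ hok he =>
    intro off s hv hag hcb hpc hat
    obtain ⟨h123, h4⟩ := At.append hat
    obtain ⟨h12, h3⟩ := h123.append
    obtain ⟨h1, h2⟩ := h12.append
    rw [compE_length] at h2
    obtain ⟨s₁, r₁, p₁, m₁, f₁, v₁⟩ :=
      compE_correct e K off s σ le_rfl hv.1 hag hcb hok hpc h1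
    have hget := h2.get
    set LP := (compC K (off + e.size + 1) p).length with hLP
    have hst : step P s₁ = ⟨off + e.size + 1 + LP + 1, s₁.reg, s₁.mem⟩ := by
      simp only [step, p₁, hget, v₁, if_pos he]
    refine ⟨_, r₁.trans (Reach.one r₁.bdd ?_ hst), ?_, ?_⟩
    · exact r₁.bdd
    · simp only [compC, List.length_append, compE_length, List.length_singleton]
      omega
    · exact ⟨fun r hr => (f₁ r hr).trans (hag.1 r hr), m₁.trans hag.2⟩
  | @loopT e p σ σ₁ σ₂ t₁ t₂ hok he h₁ h₂ ih₁ ih₂ =>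
    intro off s hv hag hcb hpc hat
    have hat' := hat
    obtain ⟨h123, h4⟩ := At.append hat
    obtain ⟨h12, h3⟩ := h123.append
    obtain ⟨h1, h2⟩ := h12.append
    rw [compE_length] at h2
    rw [List.length_append, compE_length, List.length_singleton] at h3
    rw [List.length_append, List.length_append, compE_length, List.length_singleton] at h4
    obtain ⟨s₁, r₁, p₁, m₁, f₁, v₁⟩ :=
      compE_correct e K off s σ le_rfl hv.1 hag hcb hok hpc h1
    have hget := h2.get
    have hst : step P s₁ = ⟨off + e.size + 1, s₁.reg, s₁.mem⟩ := by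
      simp only [step, p₁, hget, v₁, if_neg he]
    have hag₁ : Agree K ⟨off + e.size + 1, s₁.reg, s₁.mem⟩ σ :=
      ⟨fun r hr => (f₁ r hr).trans (hag.1 r hr), m₁.trans hag.2⟩
    have h3' : At P (off + e.size + 1) (compC K (off + e.size + 1) p) := by
      simpa [Nat.add_assoc] using h3
    obtain ⟨s₂, r₂, p₂, g₂⟩ := ih₁ (off + e.size + 1) ⟨off + e.size + 1, s₁.reg, s₁.mem⟩ hv.2
      hag₁ r₁.bdd rfl h3'
    have hget4 := h4.get
    have hst2 : step P s₂ = ⟨off, s₂.reg, s₂.mem⟩ := by
      have : s₂.pc = off + (e.size + 1 + (compC K (off + e.size + 1) p).length) := by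
        rw [p₂]; omega
      simp only [step, this, hget4]
    obtain ⟨s₃, r₃, p₃, g₃⟩ := ih₂ off ⟨off, s₂.reg, s₂.mem⟩ hv ⟨g₂.1, g₂.2⟩ r₂.bdd rfl hat'
    refine ⟨s₃, (((r₁.trans (Reach.one r₁.bdd ?_ hst)).trans r₂).trans
      (Reach.one r₂.bdd ?_ hst2)).trans r₃, p₃, g₃⟩
    · exact r₁.bdd
    · exact r₂.bdd

/-- The structured run, transported to the flat machine. -/
theorem halts_of_exec {W K : ℕ} {c : Cmd} {x : List ℕ} {σ' : St} {t T : ℕ} (hK : 0 < K)
    (h : Exec W c ⟨fun i => if i = 0 then x.length else 0, fun i => x.getD i 0⟩ t σ')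
    (hv : c.vars K) (hT : t ≤ T) (hlen : x.length ≤ W) (hx : ∀ a ∈ x, a ≤ W) :
    ∃ s', HaltsWithin (compC K 0 c) (initial x) T W s' ∧ s'.reg 0 = σ'.reg 0 ∧
      s'.mem = σ'.mem := by
  have hcb : CB W (initial x) := by
    intro i
    constructor
    · simp only [initial]; split_ifs; exacts [hlen, Nat.zero_le _]
    · simp only [initial]
      rw [List.getD_eq_getElem?_getD]
      rcases hget : x[i]? with _ | a
      · simp
      · simpa using hx a (List.mem_of_getElem? hget)
  have hat : At (compC K 0 c) 0 (compC K 0 c) := ⟨[], [], by simp, rfl⟩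
  obtain ⟨s', r, p, g⟩ := compC_correct h 0 (initial x) hv ⟨fun _ _ => rfl, rfl⟩ hcb rfl hat
  refine ⟨s', ⟨t, hT, r.1, by rw [p]; omega, r.2⟩, g.1 0 hK, g.2⟩

end Pool.Agent.Lib.Ram
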