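import Pool.Agent.Lib.Ram.Lang

namespace Pool.Agent.Lib.Ram

@[simp] theorem St.set_mem (σ : St) (d v : ℕ) : (σ.set d v).mem = σ.mem := rfl
@[simp] theorem St.put_reg (σ : St) (a v : ℕ) : (σ.put a v).reg = σ.reg := rfl
@[simp] theorem St.set_reg (σ : St) (d v r : ℕ) :
    (σ.set d v).reg r = if r = d then v else σ.reg r := by
  simp [St.set, Function.update_apply]
@[simp] theorem St.put_mem (σ : St) (a v b : ℕ) :
    (σ.put a v).mem b = if b = a then v else σ.mem b := by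
  simp [St.put, Function.update_apply]

/-- Termination of `c` from `σ` in a state satisfying `Q` (all values at most `W`). -/
def Term (W : ℕ) (c : Cmd) (σ : St) (Q : St → Prop) : Prop :=
  ∃ t σ', Exec W c σ t σ' ∧ Q σ'

/-- The same with a time bound. -/
def Run (W : ℕ) (c : Cmd) (σ : St) (T : ℕ) (Q : St → Prop) : Prop :=
  ∃ t σ', t ≤ T ∧ Exec W c σ t σ' ∧ Q σ'

variable {W : ℕ} {σ : St} {Q : St → Prop}

theorem Term.mono {c : Cmd} {Q' : St → Prop} (h : Term W c σ Q) (hQ : ∀ σ', Q σ' → Q' σ') :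
    Term W c σ Q' := by
  obtain ⟨t, σ', h, q⟩ := h
  exact ⟨t, σ', h, hQ _ q⟩

theorem Run.mono {c : Cmd} {T T' : ℕ} {Q' : St → Prop} (h : Run W c σ T Q) (hT : T ≤ T')
    (hQ : ∀ σ', Q σ' → Q' σ') : Run W c σ T' Q' := by
  obtain ⟨t, σ', ht, h, q⟩ := h
  exact ⟨t, σ', ht.trans hT, h, hQ _ q⟩

theorem Term.skip (h : Q σ) : Term W .skip σ Q := ⟨_, _, .skip σ, h⟩

theorem Term.assign {d : ℕ} {e : Expr} (h : e.ok W σ) (hQ : Q (σ.set d (e.eval σ))) :
    Term W (.assign d e) σ Q := ⟨_, _, .assign σ d e h, hQ⟩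

theorem Term.store {a v : Expr} (ha : a.ok W σ) (hv : v.ok W σ)
    (hQ : Q (σ.put (a.eval σ) (v.eval σ))) : Term W (.store a v) σ Q :=
  ⟨_, _, .store σ a v ha hv, hQ⟩

theorem Term.seq {p q : Cmd} (h : Term W p σ (fun σ₁ => Term W q σ₁ Q)) :
    Term W (.seq p q) σ Q := by
  obtain ⟨t₁, σ₁, h₁, t₂, σ₂, h₂, hQ⟩ := h
  exact ⟨_, _, .seq h₁ h₂, hQ⟩

theorem Term.ite {e : Expr} {p q : Cmd} (h : e.ok W σ) (hp : e.eval σ ≠ 0 → Term W p σ Q)
    (hq : e.eval σ = 0 → Term W q σ Q) : Term W (.ite e p q) σ Q := by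
  by_cases he : e.eval σ = 0
  · obtain ⟨t, σ', hx, hQ⟩ := hq he
    exact ⟨_, _, .iteF h he hx, hQ⟩
  · obtain ⟨t, σ', hx, hQ⟩ := hp he
    exact ⟨_, _, .iteT h he hx, hQ⟩

def Cmd.loopFree : Cmd → Prop
  | .skip => True
  | .assign _ _ => True
  | .store _ _ => True
  | .seq p q => p.loopFree ∧ q.loopFree
  | .ite _ p q => p.loopFree ∧ q.loopFree
  | .loop _ _ => False

def Cmd.cost : Cmd → ℕ
  | .skip => 0
  | .assign _ e => e.size + 2
  | .store a v => a.size + v.size + 1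
  | .seq p q => p.cost + q.cost
  | .ite e p q => e.size + 2 + p.cost + q.cost
  | .loop _ _ => 0

theorem Exec.le_cost {c : Cmd} {σ σ' : St} {t : ℕ} (h : Exec W c σ t σ') :
    c.loopFree → t ≤ c.cost := by
  induction h with
  | skip σ => exact fun _ => le_rfl
  | assign => exact fun _ => le_rfl
  | store => exact fun _ => le_rfl
  | seq _ _ ih₁ ih₂ => intro hl; have := ih₁ hl.1; have := ih₂ hl.2; simp only [Cmd.cost]; omega
  | iteT _ _ _ ih => intro hl; have := ih hl.1; simp only [Cmd.cost]; omega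
  | iteF _ _ _ ih => intro hl; have := ih hl.2; simp only [Cmd.cost]; omega
  | loopF => exact fun h => h.elim
  | loopT => exact fun h => h.elim

theorem Term.run {c : Cmd} (h : Term W c σ Q) (hl : c.loopFree) : Run W c σ c.cost Q := by
  obtain ⟨t, σ', hx, hQ⟩ := h
  exact ⟨t, σ', hx.le_cost hl, hx, hQ⟩

theorem Run.term {c : Cmd} {T : ℕ} (h : Run W c σ T Q) : Term W c σ Q := by
  obtain ⟨t, σ', _, hx, hQ⟩ := h
  exact ⟨t, σ', hx, hQ⟩

theorem Run.seq {p q : Cmd} {T₁ T₂ T : ℕ} (h : Run W p σ T₁ (fun σ₁ => Run W q σ₁ T₂ Q))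
    (hT : T₁ + T₂ ≤ T) : Run W (.seq p q) σ T Q := by
  obtain ⟨t₁, σ₁, ht₁, h₁, t₂, σ₂, ht₂, h₂, hQ⟩ := h
  exact ⟨_, _, by omega, .seq h₁ h₂, hQ⟩

theorem Run.ite {e : Expr} {p q : Cmd} {T' T : ℕ} (h : e.ok W σ)
    (hp : e.eval σ ≠ 0 → Run W p σ T' Q) (hq : e.eval σ = 0 → Run W q σ T' Q)
    (hT : e.size + 2 + T' ≤ T) : Run W (.ite e p q) σ T Q := by
  by_cases he : e.eval σ = 0
  · obtain ⟨t, σ', ht, hx, hQ⟩ := hq he
    exact ⟨_, _, by omega, .iteF h he hx, hQ⟩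
  · obtain ⟨t, σ', ht, hx, hQ⟩ := hp he
    exact ⟨_, _, by omega, .iteT h he hx, hQ⟩

/-- Loop rule with at most `k` iterations, each of cost at most `B`. -/
theorem Run.loop {e : Expr} {p : Cmd} (I : ℕ → St → Prop) (B k : ℕ) (hI : I k σ)
    (hok : ∀ k σ, I k σ → e.ok W σ)
    (hs : ∀ k σ, I k σ → e.eval σ ≠ 0 → ∃ k', k = k' + 1 ∧ Run W p σ B (I k')) :
    Run W (.loop e p) σ (k * (e.size + 2 + B) + (e.size + 1))
      (fun σ' => e.eval σ' = 0 ∧ ∃ k', I k' σ') := by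
  induction k using Nat.strong_induction_on generalizing σ with
  | _ k ih =>
    by_cases he : e.eval σ = 0
    · exact ⟨_, _, by omega, .loopF (hok k σ hI) he, he, k, hI⟩
    · obtain ⟨k', rfl, t, σ', ht, hx, hI'⟩ := hs k σ hI he
      obtain ⟨t₂, σ₂, ht₂, hx₂, hQ⟩ := ih k' (by omega) hI'
      refine ⟨_, _, ?_, .loopT (hok _ σ hI) he hx hx₂, hQ⟩
      rw [Nat.add_mul, Nat.one_mul]
      omega

def iter : ℕ → (ℕ → Cmd) → Cmd
  | 0, _ => .skip
  | k + 1, f => .seq (iter k f) (f k)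

theorem Term.iter {K : ℕ} {f : ℕ → Cmd} (I : ℕ → St → Prop) (hI : I 0 σ)
    (hs : ∀ k < K, ∀ σ, I k σ → Term W (f k) σ (I (k + 1))) : Term W (iter K f) σ (I K) := by
  induction K with
  | zero => exact Term.skip hI
  | succ K ih =>
    exact Term.seq ((ih (fun k hk => hs k (by omega))).mono fun σ' h => hs K (by omega) σ' h)

theorem iter_loopFree {K : ℕ} {f : ℕ → Cmd} (h : ∀ k, (f k).loopFree) : (iter K f).loopFree := by
  induction K with
  | zero => trivial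
  | succ K ih => exact ⟨ih, h K⟩

theorem iter_vars {K n : ℕ} {f : ℕ → Cmd} (h : ∀ k, (f k).vars n) : (iter K f).vars n := by
  induction K with
  | zero => trivial
  | succ K ih => exact ⟨ih, h K⟩

def sw (e : Expr) : ℕ → (ℕ → Cmd) → Cmd
  | 0, _ => .skip
  | k + 1, f => .ite (.add (.sub e (.lit k)) (.sub (.lit k) e)) (sw e k f) (f k)

theorem Term.sw {K : ℕ} {f : ℕ → Cmd} {e : Expr} (he : e.ok W σ) (hK : K ≤ W)
    (hle : e.eval σ < K) (h : Term W (f (e.eval σ)) σ Q) : Term W (sw e K f) σ Q := by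
  induction K with
  | zero => omega
  | succ K ih =>
    refine Term.ite ⟨⟨he, ?_⟩, ⟨?_, he⟩, ?_⟩ (fun h0 => ?_) (fun h0 => ?_)
    · show K ≤ W; omega
    · show K ≤ W; omega
    · show (e.eval σ - K) + (K - e.eval σ) ≤ W; omega
    · have h0 : (e.eval σ - K) + (K - e.eval σ) ≠ 0 := h0
      exact ih (by omega) (by omega)
    · have h0 : (e.eval σ - K) + (K - e.eval σ) = 0 := h0
      have : e.eval σ = K := by omega
      rwa [this] at h

theorem sw_loopFree {K : ℕ} {e : Expr} {f : ℕ → Cmd} (h : ∀ k, (f k).loopFree) :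
    (sw e K f).loopFree := by
  induction K with
  | zero => trivial
  | succ K ih => exact ⟨ih, h K⟩

theorem sw_vars {K n : ℕ} {e : Expr} {f : ℕ → Cmd} (he : e.vars n) (h : ∀ k, (f k).vars n) :
    (sw e K f).vars n := by
  induction K with
  | zero => trivial
  | succ K ih => exact ⟨⟨⟨he, trivial⟩, trivial, he⟩, ih, h K⟩

/-- Transport of a run to the flat machine. -/
theorem Run.halts {W K : ℕ} {c : Cmd} {x : List ℕ} {T : ℕ} {Q : St → Prop} (hK : 0 < K)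
    (h : Run W c ⟨fun i => if i = 0 then x.length else 0, fun i => x.getD i 0⟩ T Q)
    (hv : c.vars K) (hlen : x.length ≤ W) (hx : ∀ a ∈ x, a ≤ W) :
    ∃ s' σ', HaltsWithin (compC K 0 c) (initial x) T W s' ∧ s'.reg 0 = σ'.reg 0 ∧
      s'.mem = σ'.mem ∧ Q σ' := by
  obtain ⟨t, σ', ht, hx', hQ⟩ := h
  obtain ⟨s', h1, h2, h3⟩ := halts_of_exec hK hx' hv ht hlen hx
  exact ⟨s', σ', h1, h2, h3, hQ⟩

end Pool.Agent.Lib.Ram
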